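import Pool.Agent.TH694.PN.Alg
import Pool.Agent.TH694.GP.Geo

/-!
# The pinning number of a graph in the plane is computed in polynomial time

`NPC.PolyTime f`: the function `f` on bit strings is computed by a Turing machine in polynomial time
(Mathlib's `Turing.TM2ComputableInPolyTime`).  `NPC.bits`: the standard code of structured data as a
bit string; numbers are written in binary.  `adjMatrix G`: the adjacency matrix of a graph `G` on
`{0, ..., n-1}`, as the list of its rows, which are lists of Booleans.  `RigidInPlane G`: at every
generic realization the rank of the rigidity matrix of `G` is at least `min(n(n-1)/2, 2n-3)`.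

The algorithm is that of `MP_5d015b_lc.PinningInP` (smallest `P` such that `G + K(P)` is globally
rigid); here it is combined with the geometry of pinned vertices: a set `P` other than the set of
all vertices pins `G` if and only if it has at least three members and `G + K(P)` is globally rigid.
-/

namespace Pool.Agent.Results.MP_35f203_lc.PinningNumber

open Pool.Agent.NPC Pool.Agent.NPC.R671 Pool.Agent.H632R2.Cogirth

/-- A realization in the plane is generic if its `2|V|` coordinates are algebraically independent
over `ℚ`. -/
def GenericRealization {n : ℕ} (p : Fin n → EuclideanSpace ℝ (Fin 2)) : Prop :=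
  AlgebraicIndependent ℚ (fun c : Fin n × Fin 2 => p c.1 c.2)

/-- The vertex set `P` pins `G`: for every generic realization `p`, whenever the realization `q` has
the same edge lengths as `p` and agrees with `p` on `P`, then `q = p`. -/
def Pins {n : ℕ} (G : SimpleGraph (Fin n)) (P : Finset (Fin n)) : Prop :=
  ∀ p : Fin n → EuclideanSpace ℝ (Fin 2), GenericRealization p →
    ∀ q : Fin n → EuclideanSpace ℝ (Fin 2),
      (∀ u v, G.Adj u v → dist (q u) (q v) = dist (p u) (p v)) → (∀ v ∈ P, q v = p v) → q = p

/-- `G` is globally rigid in the plane: for every generic realization `p`, every realization `q` with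
the same edge lengths is congruent to `p`. -/
def GloballyRigid {n : ℕ} (G : SimpleGraph (Fin n)) : Prop :=
  ∀ p : Fin n → EuclideanSpace ℝ (Fin 2), GenericRealization p →
    ∀ q : Fin n → EuclideanSpace ℝ (Fin 2),
      (∀ u v, G.Adj u v → dist (q u) (q v) = dist (p u) (p v)) →
      ∀ u v, dist (q u) (q v) = dist (p u) (p v)

/-- `K(P)`: the complete graph on `P`, as a graph on `V`. -/
def K {n : ℕ} (P : Finset (Fin n)) : SimpleGraph (Fin n) :=
  SimpleGraph.fromRel fun u v => u ∈ P ∧ v ∈ P

/-- At least four vertices, and the deletion of at most two vertices leaves a connected graph. -/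
def ThreeConnected {n : ℕ} (G : SimpleGraph (Fin n)) : Prop :=
  4 ≤ n ∧ ∀ S : Finset (Fin n), S.card ≤ 2 → (G.induce {v | v ∉ S}).Connected

/-- Rigid, and still rigid after the deletion of any one edge. -/
def RedundantlyRigid {n : ℕ} (G : SimpleGraph (Fin n)) : Prop :=
  RigidInPlane G ∧ ∀ e ∈ G.edgeSet, RigidInPlane (G.deleteEdges {e})

/-- The combinatorial form of pinning: all vertices, or at least three vertices such that `G + K(P)`
is 3-connected and redundantly rigid. -/
def CombPins {n : ℕ} (G : SimpleGraph (Fin n)) (P : Finset (Fin n)) : Prop :=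
  P = Finset.univ ∨ (3 ≤ P.card ∧ ThreeConnected (G ⊔ K P) ∧ RedundantlyRigid (G ⊔ K P))

/-- The least size of a set `P` with the property `R G P`.  For `R = Pins` this is the pinning
number `pin(G)`. -/
noncomputable def leastSize (R : ∀ n : ℕ, SimpleGraph (Fin n) → Finset (Fin n) → Prop) (n : ℕ)
    (G : SimpleGraph (Fin n)) : ℕ :=
  sInf {k | ∃ P : Finset (Fin n), R n G P ∧ P.card = k}

open Classical in
/-- Some polynomial-time algorithm computes, given a graph `G`, the least size of a set `P` with
`R G P`; some polynomial-time algorithm decides, given `G` and a number `k`, whether this least size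
is at most `k`; and some polynomial-time algorithm outputs (the characteristic vector of) a smallest
set `P` with `R G P`. -/
def SolvableInPolyTime (R : ∀ n : ℕ, SimpleGraph (Fin n) → Finset (Fin n) → Prop) : Prop :=
  (∃ f : List Bool → List Bool, PolyTime f ∧ ∀ (n : ℕ) (G : SimpleGraph (Fin n)),
    f (bits (adjMatrix G)) = bits (leastSize R n G)) ∧
  (∃ f : List Bool → List Bool, PolyTime f ∧ ∀ (n : ℕ) (G : SimpleGraph (Fin n)) (k : ℕ),
    f (bits (adjMatrix G, k)) = bits (decide (leastSize R n G ≤ k))) ∧
  (∃ f : List Bool → List Bool, PolyTime f ∧ ∀ (n : ℕ) (G : SimpleGraph (Fin n)),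
    ∃ P : Finset (Fin n), R n G P ∧ P.card = leastSize R n G ∧
      f (bits (adjMatrix G)) = bits (List.ofFn fun i => decide (i ∈ P)))

theorem combPins_iff {n : ℕ} (G : SimpleGraph (Fin n)) (P : Finset (Fin n)) :
    CombPins G P ↔ TH694.PN.CP G P := by
  unfold CombPins TH694.PN.CP
  refine or_congr_right (and_congr_right fun _ => ?_)
  unfold ThreeConnected RedundantlyRigid TH694.GP.CombGR
  constructor
  · rintro ⟨⟨h1, h2⟩, h3⟩
    exact ⟨h1, Or.inr ⟨h1, h2, h3⟩⟩
  · rintro ⟨h1, ⟨h2, -⟩ | ⟨-, h2, h3⟩⟩
    · omega
    · exact ⟨⟨h1, h2⟩, h3⟩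

theorem leastSize_eq {R : ∀ n : ℕ, SimpleGraph (Fin n) → Finset (Fin n) → Prop} {n : ℕ}
    {G : SimpleGraph (Fin n)} {P : Finset (Fin n)} (h1 : R n G P)
    (h2 : ∀ P' : Finset (Fin n), R n G P' → P.card ≤ P'.card) : leastSize R n G = P.card := by
  refine le_antisymm (Nat.sInf_le ⟨P, h1, rfl⟩) ?_
  refine le_csInf ⟨P.card, P, h1, rfl⟩ ?_
  rintro k ⟨P', h3, rfl⟩
  exact h2 P' h3

theorem comb_solvable : SolvableInPolyTime (fun _ G P => CombPins G P) := by
  classical
  obtain ⟨g, hg, hspec⟩ := TH694.PN.exists_search
  have hg2 : NPC.Poly fun M : List (List Bool) => ((g M).filter fun b => b).length :=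
    NPC.Poly.length (NPC.Poly.filter (p := fun _ b => b) hg (NPC.Poly.snd NPC.Poly.id))
  have hnum : ∀ (n : ℕ) (G : SimpleGraph (Fin n)),
      ((g (adjMatrix G)).filter fun b => b).length =
        leastSize (fun _ G P => CombPins G P) n G := by
    intro n G
    obtain ⟨P, h1, h2, h3⟩ := hspec n G
    rw [h3, TH694.PN.count_ofFn]
    exact (leastSize_eq (R := fun _ G P => CombPins G P) ((combPins_iff G P).2 h1)
      fun P' hP' => h2 P' ((combPins_iff G P').1 hP')).symm
  refine ⟨?_, ?_, ?_⟩
  · refine ⟨fun x => bits ((unbits (List (List Bool)) x).elim 0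
      (fun M => ((g M).filter fun b => b).length)), ?_, fun n G => ?_⟩
    · apply polyTime_bits
      exact NPC.Poly.optElim (o := fun x => unbits (List (List Bool)) x)
        (h := fun _ M => ((g M).filter fun b => b).length) poly_unbits (NPC.Poly.const 0)
        (hg2.comp (NPC.Poly.snd NPC.Poly.id))
    · simp only [unbits_bits, Option.elim]
      rw [hnum]
  · refine ⟨fun x => bits ((unbits (List (List Bool) × ℕ) x).elim false
      (fun I => decide (((g I.1).filter fun b => b).length ≤ I.2))), ?_, fun n G k => ?_⟩
    · apply polyTime_bits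
      refine NPC.Poly.optElim (o := fun x => unbits (List (List Bool) × ℕ) x)
        (h := fun _ I => decide (((g I.1).filter fun b => b).length ≤ I.2)) poly_unbits
        (NPC.Poly.const false) ?_
      exact NPC.Poly.decide_le
        (hg2.comp (NPC.Poly.fst (NPC.Poly.snd NPC.Poly.id)))
        (NPC.Poly.snd (NPC.Poly.snd NPC.Poly.id))
    · simp only [unbits_bits, Option.elim]
      rw [hnum]
  · refine ⟨fun x => bits ((unbits (List (List Bool)) x).elim [] g), ?_, fun n G => ?_⟩
    · apply polyTime_bits
      exact NPC.Poly.optElim (o := fun x => unbits (List (List Bool)) x) (h := fun _ I => g I)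
        poly_unbits (NPC.Poly.const []) (hg.comp (NPC.Poly.snd NPC.Poly.id))
    · obtain ⟨P, h1, h2, h3⟩ := hspec n G
      refine ⟨P, (combPins_iff G P).2 h1, ?_, ?_⟩
      · exact (leastSize_eq (R := fun _ G P => CombPins G P) ((combPins_iff G P).2 h1)
          fun P' hP' => h2 P' ((combPins_iff G P').1 hP')).symm
      · simp only [unbits_bits, Option.elim]
        rw [h3]

theorem pins_iff' {n : ℕ} (G : SimpleGraph (Fin n)) (P : Finset (Fin n)) :
    Pins G P ↔ TH694.GP.Pins G (P : Set (Fin n)) := by
  unfold Pins TH694.GP.Pins
  refine forall_congr' fun p => forall_congr' fun _ => forall_congr' fun q => ?_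
  unfold TH694.GP.Equivalent
  constructor
  · intro h h1 h2
    exact h (fun u v huv => (h1 u v huv).symm) (fun v hv => h2 v (Finset.mem_coe.2 hv))
  · intro h h1 h2
    exact h (fun u v huv => (h1 u v huv).symm) (fun v hv => h2 v (Finset.mem_coe.1 hv))

theorem gr_iff' {n : ℕ} (G : SimpleGraph (Fin n)) :
    GloballyRigid G ↔ TH694.GP.GloballyRigid G := by
  unfold GloballyRigid TH694.GP.GloballyRigid
  refine forall_congr' fun p => forall_congr' fun _ => forall_congr' fun q => ?_
  unfold TH694.GP.Equivalent TH694.GP.Congruent
  constructor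
  · intro h h1 u v
    exact (h (fun u v huv => (h1 u v huv).symm) u v).symm
  · intro h h1 u v
    exact (h (fun u v huv => (h1 u v huv).symm) u v).symm

theorem pins_iff {n : ℕ} (G : SimpleGraph (Fin n)) (P : Finset (Fin n)) :
    Pins G P ↔ P = Finset.univ ∨ (3 ≤ P.card ∧ GloballyRigid (G ⊔ K P)) := by
  constructor
  · intro h
    rw [pins_iff'] at h
    have h1 := TH694.GP.card_of_pins h
    by_cases h3 : 3 ≤ P.card
    · right
      refine ⟨h3, ?_⟩
      rw [gr_iff']
      exact (TH694.GP.pins_iff G P h3).1 h
    · left
      have h4 : n ≤ P.card := by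
        rcases le_total n 3 with h5 | h5
        · rwa [min_eq_left h5] at h1
        · rw [min_eq_right h5] at h1
          exact absurd h1 h3
      apply Finset.eq_univ_of_card
      rw [Fintype.card_fin]
      exact le_antisymm (by simpa using Finset.card_le_univ P) h4
  · rintro (rfl | ⟨h3, h⟩)
    · intro p _ q _ hq
      funext v
      exact hq v (Finset.mem_univ v)
    · rw [pins_iff']
      rw [gr_iff'] at h
      exact (TH694.GP.pins_iff G P h3).2 h

/-- **The pinning number is computed in polynomial time.**
(1) `P` pins `G` if and only if `P` is the set of all vertices, or `P` has at least three members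
and `G + K(P)` is globally rigid.
(2) The problem is solvable in polynomial time with the combinatorial form of pinning.
(3) If for graphs with at least four vertices `GloballyRigid` is equivalent to 3-connectedness and
redundant rigidity (the theorem of Connelly, Jackson and Jordán), then the combinatorial form of
pinning is equivalent to pinning for all graphs and sets, and the pinning number `pin(G)` is computed
in polynomial time, `pin(G) ≤ k` is decided in polynomial time, and a smallest set which pins `G` is
found in polynomial time. -/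
theorem result :
    (∀ (n : ℕ) (G : SimpleGraph (Fin n)) (P : Finset (Fin n)),
      Pins G P ↔ P = Finset.univ ∨ (3 ≤ P.card ∧ GloballyRigid (G ⊔ K P))) ∧
    SolvableInPolyTime (fun _ G P => CombPins G P) ∧
    ((∀ n : ℕ, 4 ≤ n → ∀ G : SimpleGraph (Fin n),
        GloballyRigid G ↔ ThreeConnected G ∧ RedundantlyRigid G) →
      (∀ (n : ℕ) (G : SimpleGraph (Fin n)) (P : Finset (Fin n)), Pins G P ↔ CombPins G P) ∧
        SolvableInPolyTime (fun _ G P => Pins G P)) := by
  refine ⟨fun n G P => pins_iff G P, comb_solvable, fun hJJ => ?_⟩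
  have h : ∀ (n : ℕ) (G : SimpleGraph (Fin n)) (P : Finset (Fin n)),
      Pins G P ↔ CombPins G P := by
    intro n G P
    rw [pins_iff]
    unfold CombPins
    by_cases hn : 4 ≤ n
    · rw [hJJ n hn]
    · constructor
      · rintro (h1 | ⟨h1, -⟩)
        · exact Or.inl h1
        · left
          apply Finset.eq_univ_of_card
          have h2 := Finset.card_le_univ P
          rw [Fintype.card_fin] at h2 ⊢
          omega
      · rintro (h1 | ⟨-, h1, -⟩)
        · exact Or.inl h1
        · exact absurd h1.1 hn
  refine ⟨h, ?_⟩
  have h2 : (fun (n : ℕ) (G : SimpleGraph (Fin n)) (P : Finset (Fin n)) => Pins G P) =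
      fun (n : ℕ) (G : SimpleGraph (Fin n)) (P : Finset (Fin n)) => CombPins G P := by
    funext n G P
    exact propext (h n G P)
  rw [h2]
  exact comb_solvable

end Pool.Agent.Results.MP_35f203_lc.PinningNumber
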